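import Pool.Agent.Lib.MP_c7af3c_ag.T2.Iface
import Pool.Agent.Lib.MP_c7af3c_ag.GEN.H12.Reln

/-!
# MP_c7af3c_ag, project T2, module EXTA: passage to algebraically closed fields
-/

set_option autoImplicit false

namespace Pool.Agent.T2.H2

open MvPolynomial Pool.Agent.Gen Pool.Agent.Sharp Pool.Agent.Edge Pool.Agent.T2

/-! ### linear algebra -/

section lin

/-- dual vectors -/
theorem exists_dual {F ι κ : Type*} [Field F] [Fintype ι] [DecidableEq ι] [Fintype κ]
    [DecidableEq κ] (v : ι → κ → F) (h : LinearIndependent F v) :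
    ∃ w : ι → κ → F, ∀ i j, ∑ p, w i p * v j p = if i = j then 1 else 0 := by
  have hker : LinearMap.ker (Fintype.linearCombination F v) = ⊥ := by
    rw [LinearMap.ker_eq_bot']
    intro m hm
    rw [Fintype.linearCombination_apply] at hm
    exact funext fun i => Fintype.linearIndependent_iff.1 h m hm i
  obtain ⟨g, hg⟩ := (Fintype.linearCombination F v).exists_leftInverse_of_injective hker
  refine ⟨fun i p => g (Pi.single p 1) i, fun i j => ?_⟩
  have h1 := congrFun (LinearMap.congr_fun hg (Pi.single j 1)) i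
  rw [LinearMap.comp_apply, Fintype.linearCombination_apply_single, one_smul, LinearMap.id_apply,
    Pi.single_apply] at h1
  rw [← h1]
  have h2 : v j = ∑ p, v j p • (Pi.single p 1 : κ → F) := by
    funext q
    simp [Finset.sum_apply, Pi.single_apply]
  conv_rhs => rw [h2]
  rw [map_sum, Finset.sum_apply]
  refine Finset.sum_congr rfl fun p _ => ?_
  rw [map_smul, Pi.smul_apply, smul_eq_mul, mul_comm]

theorem li_map {F E ι κ : Type*} [Field F] [Field E] [Finite ι] [Fintype κ] (φ : F →+* E)
    (v : ι → κ → F) (h : LinearIndependent F v) : LinearIndependent E fun i p => φ (v i p) := by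
  classical
  have := Fintype.ofFinite ι
  obtain ⟨w, hw⟩ := exists_dual v h
  rw [Fintype.linearIndependent_iff]
  intro c hc i
  have h1 : ∀ p, ∑ j, c j * φ (v j p) = 0 := fun p => by
    have h2 := congrFun hc p
    rw [Finset.sum_apply] at h2
    exact h2
  have h3 : ∑ p, φ (w i p) * ∑ j, c j * φ (v j p) = c i := by
    simp only [Finset.mul_sum]
    rw [Finset.sum_comm]
    have h4 : ∀ j, ∑ p, φ (w i p) * (c j * φ (v j p)) = if i = j then c j else 0 := by
      intro j
      have h5 : ∑ p, φ (w i p) * (c j * φ (v j p)) = c j * φ (∑ p, w i p * v j p) := by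
        rw [map_sum, Finset.mul_sum]
        refine Finset.sum_congr rfl fun p _ => ?_
        rw [map_mul]
        ring
      rw [h5, hw]
      split_ifs <;> simp
    rw [Finset.sum_congr rfl fun j _ => h4 j]
    simp
  rw [← h3]
  simp [h1]

/-- a finite family is written in a basis of its span -/
theorem dec {F E ι : Type*} [Field F] [Field E] [Algebra F E] [Finite ι] (c : ι → E) :
    ∃ (N : ℕ) (κ : Fin N → E) (b : ι → Fin N → F), LinearIndependent F κ ∧
      (∀ i, c i = ∑ j, algebraMap F E (b i j) * κ j) ∧
      ∀ j, κ j ∈ Submodule.span F (Set.range c) := by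
  have hfin : FiniteDimensional F (Submodule.span F (Set.range c)) :=
    FiniteDimensional.span_of_finite F (Set.finite_range c)
  let B := Module.finBasis F (Submodule.span F (Set.range c))
  refine ⟨_, fun j => (B j : E), fun i j =>
    B.repr ⟨c i, Submodule.subset_span ⟨i, rfl⟩⟩ j, ?_, fun i => ?_, fun j => (B j).2⟩
  · exact B.linearIndependent.map' (Submodule.subtype _) (Submodule.ker_subtype _)
  · have h := congrArg (Submodule.subtype (Submodule.span F (Set.range c)))
      (B.sum_repr ⟨c i, Submodule.subset_span ⟨i, rfl⟩⟩)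
    rw [map_sum] at h
    change _ = c i at h
    rw [← h]
    refine Finset.sum_congr rfl fun j _ => ?_
    rw [map_smul, Algebra.smul_def]
    rfl

end lin

/-! ### transfer -/

section tr

variable {Ω E : Type} [Field Ω] [Field E] (φ : Ω →+* E) (D : D6 Ω) (D' : D6 E)
  (x : Fin (4 + 1) → Ω) (j0 : Fin (4 + 1))

/-- a vector with the images of the coordinates -/
def im (u : Fin (4 + 1) → Ω) : Fin (4 + 1) → E := fun p => φ (u p)

theorem im_apply (u : Fin (4 + 1) → Ω) (p : Fin (4 + 1)) : im φ u p = φ (u p) := rfl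

theorem eval_map' (G : MvPolynomial (Fin (4 + 1)) Ω) :
    eval (im φ x) (MvPolynomial.map φ G) = φ (eval x G) := by
  rw [eval_map, ← eval₂_id, MvPolynomial.hom_eval₂]
  rfl

theorem V_im (hd : ∀ I z, D'.del 0 I (φ z) = φ (D.del 0 I z)) (G : MvPolynomial (Fin (4 + 1)) Ω) :
    D'.V (im φ x) 0 (MvPolynomial.map φ G) = im φ (D.V x 0 G) := by
  induction G using MvPolynomial.induction_on' with
  | monomial I a =>
      rw [map_monomial]
      funext p
      rw [DSys.V_monomial, im_apply, im_apply, DSys.V_monomial, hd, map_mul]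
  | add p q hp hq =>
      rw [map_add, map_add, map_add, hp, hq]
      funext p
      rw [Pi.add_apply, im_apply, im_apply, im_apply, Pi.add_apply, map_add]

theorem lf_im (i : Fin (4 + 1)) : lf (im φ x) j0 i = MvPolynomial.map φ (lf x j0 i) := by
  unfold lf
  simp [im]

theorem lam_im {m : ℕ} (t : Fin m → Fin (4 + 1)) (P : Fin m → Fin (4 + 1) → Ω)
    (f : Fin (4 + 1)) : lam t (fun i => im φ (P i)) f = MvPolynomial.map φ (lam t P f) := by
  unfold lam
  simp [im]

theorem WT_im (hF : D'.F 0 = MvPolynomial.map φ (D.F 0))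
    (hd : ∀ I z, D'.del 0 I (φ z) = φ (D.del 0 I z)) (p q : Fin (4 + 1)) :
    WT D' (im φ x) p q = im φ (WT D x p q) := by
  unfold WT
  rw [VT_apply, VT_apply, Fin.sum_univ_one, Fin.sum_univ_one, hF]
  have h : X q * pderiv p (MvPolynomial.map φ (D.F 0)) =
      MvPolynomial.map φ (X q * pderiv p (D.F 0)) := by
    rw [map_mul, map_X, pderiv_map]
  rw [h, V_im φ D D' x hd]
  funext s
  rw [Pi.add_apply, im_apply, im_apply φ (_ + _), Pi.add_apply, map_add, Pi.smul_apply,
    Pi.smul_apply, smul_eq_mul, smul_eq_mul, map_mul φ (x q), im_apply]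
  congr 2
  rw [Pi.single_apply, Pi.single_apply]
  split_ifs <;> simp

theorem Hs_im {s : ℕ} (η : Fin s → Fin (4 + 1) → Ω) {u : Fin (4 + 1) → Ω} (hu : u ∈ Hs x η) :
    im φ u ∈ Hs (im φ x) (fun a => im φ (η a)) := by
  unfold Hs at hu ⊢
  induction hu using Submodule.span_induction with
  | mem w hw =>
      rcases hw with rfl | ⟨a, rfl⟩
      · exact Submodule.subset_span (Or.inl rfl)
      · exact Submodule.subset_span (Or.inr ⟨a, rfl⟩)
  | zero =>
      have h : im φ (0 : Fin (4 + 1) → Ω) = 0 := by
        funext p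
        simp [im]
      rw [h]
      exact Submodule.zero_mem _
  | add a b _ _ ha hb =>
      have h : im φ (a + b) = im φ a + im φ b := by
        funext p
        simp [im]
      rw [h]
      exact Submodule.add_mem _ ha hb
  | smul c a _ ha =>
      have h : im φ (c • a) = φ c • im φ a := by
        funext p
        simp [im]
      rw [h]
      exact Submodule.smul_mem _ _ ha

end tr

/-- linear maps are determined by monomials -/
theorem hom_mem {E M σ : Type*} [Field E] [AddCommGroup M] [Module E M]
    (L : MvPolynomial σ E →ₗ[E] M) (S : Submodule E M) (d : ℕ)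
    (h : ∀ I : σ →₀ ℕ, I.degree = d → L (monomial I 1) ∈ S) (A : MvPolynomial σ E)
    (hA : A.IsHomogeneous d) : L A ∈ S := by
  rw [A.as_sum, map_sum]
  refine Submodule.sum_mem _ fun I hI => ?_
  have h1 : monomial I (coeff I A) = coeff I A • monomial I (1 : E) := by
    rw [smul_monomial, smul_eq_mul, mul_one]
  rw [h1, map_smul]
  refine Submodule.smul_mem _ _ (h I ?_)
  have h2 := hA (mem_support_iff.1 hI)
  rw [Finsupp.degree_eq_weight_one]
  exact h2

/-- a relatively algebraically closed subfield -/
theorem rac_of_closed {E : Type} [Field E] (K : Subfield E) (hK : IsAlgClosed K) : Rac K := by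
  intro z p hp hc hz
  have h1 : p ∈ Polynomial.lifts K.subtype := by
    rw [Polynomial.lifts_iff_coeff_lifts]
    intro i
    exact ⟨⟨p.coeff i, hc i⟩, rfl⟩
  obtain ⟨p', hp'⟩ := (Polynomial.mem_lifts p).1 h1
  have h0 : p' ≠ 0 := by
    rintro rfl
    rw [Polynomial.map_zero] at hp'
    exact hp hp'.symm
  have h2 : IsAlgebraic K z := ⟨p', h0, by
    rw [Polynomial.aeval_def, ← Polynomial.eval_map]
    change (Polynomial.map K.subtype p').eval z = 0
    rw [hp']
    exact hz⟩
  have h3 : IsIntegral K z := h2.isIntegral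
  have h4 := IsAlgClosed.degree_eq_one_of_irreducible K (minpoly.irreducible h3)
  obtain ⟨y, hy⟩ := minpoly.mem_range_of_degree_eq_one K z h4
  rw [← hy]
  exact y.2

/-! ### the words -/

section words

variable {Ω : Type} [Field Ω] {D : D6 Ω} {x : Fin (4 + 1) → Ω} {j0 : Fin (4 + 1)} {s r : ℕ}
  {η : Fin s → Fin (4 + 1) → Ω} {t : Fin (r + 1) → Fin (4 + 1)}
  {P : Fin (r + 1) → Fin (4 + 1) → Ω} {A0 : MvPolynomial (Fin (4 + 1)) Ω} {k : Subfield Ω}

/-- the four independent columns -/
noncomputable def cl (D : D6 Ω) (x : Fin (4 + 1) → Ω) (j0 : Fin (4 + 1))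
    (η : Fin s → Fin (4 + 1) → Ω) (t : Fin (r + 1) → Fin (4 + 1))
    (A0 : MvPolynomial (Fin (4 + 1)) Ω) : Unit ⊕ (Fin s ⊕ Fin r) → Fin (4 + 1) → Ω :=
  Sum.elim (fun _ : Unit => x) (Sum.elim η fun b : Fin r => D.V x 0 (A0 * lf x j0 (t b.succ)))

/-- a vector in the tangent space is a combination of the columns -/
theorem mem_cl (h : GeoA k D x j0 η t P A0) (u : Fin (4 + 1) → Ω)
    (hu : ∑ p, eval x (pderiv p (D.F 0)) * u p = 0) :
    u ∈ Submodule.span Ω (Set.range (cl D x j0 η t A0)) := by
  have h0 : ∀ m, eval x (D.F m) = 0 := fun m => by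
    rw [Subsingleton.elim m 0]
    exact h.h0
  have hev : ∀ i, eval x (lf x j0 i) = 0 := fun i => by
    unfold lf
    rw [map_sub, map_mul, eval_X, eval_C, eval_X, h.hj0, mul_one, sub_self]
  have hlf : ∀ i, (lf x j0 i).IsHomogeneous 1 := fun i => by
    unfold lf
    refine (isHomogeneous_X _ _).sub ?_
    have h1 := (isHomogeneous_C (Fin (4 + 1)) (x i)).mul (isHomogeneous_X Ω j0)
    rwa [zero_add] at h1
  -- the gradient
  let g : (Fin (4 + 1) → Ω) →ₗ[Ω] Ω :=
    ∑ p, (eval x (pderiv p (D.F 0))) • (LinearMap.proj p : (Fin (4 + 1) → Ω) →ₗ[Ω] Ω)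
  have hg : ∀ w, g w = ∑ p, eval x (pderiv p (D.F 0)) * w p := fun w => by
    simp [g, LinearMap.sum_apply]
  have hsub : Submodule.span Ω (Set.range (cl D x j0 η t A0)) ≤ LinearMap.ker g := by
    rw [Submodule.span_le]
    rintro _ ⟨a, rfl⟩
    change g _ = 0
    rw [hg]
    rcases a with a | a | a
    · have h1 := (D.hom 0).sum_X_mul_pderiv
      have h2 := congrArg (eval x) h1
      rw [map_sum, map_nsmul, h.h0, smul_zero] at h2
      rw [← h2]
      refine Finset.sum_congr rfl fun p _ => ?_
      rw [map_mul, eval_X, mul_comm]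
      rfl
    · exact h.gη a
    · have h1 := H12.reln Ω 4 1 (fun _ => 6) D x h0 0 0 (A0 * lf x j0 (t a.succ))
        (h.A0k.1.mul (hlf _))
      rw [if_pos rfl, map_mul (eval x), hev, mul_zero, neg_zero] at h1
      exact h1
  have hrk : Module.finrank Ω (Submodule.span Ω (Set.range (cl D x j0 η t A0))) = 4 := by
    have hbas : LinearIndependent Ω (cl D x j0 η t A0) := h.bas
    rw [finrank_span_eq_card hbas]
    rw [Fintype.card_sum, Fintype.card_sum, Fintype.card_fin, Fintype.card_fin, Fintype.card_unit,
      h.sr]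
  have hne : g ≠ 0 := by
    intro hz
    have h1 := H12.reln Ω 4 1 (fun _ => 6) D x h0 0 0 (X j0 ^ 6)
      (by
        have := (isHomogeneous_X Ω j0).pow 6
        rwa [one_mul] at this)
    rw [if_pos rfl, map_pow (eval x), eval_X, h.hj0, one_pow] at h1
    have h2 := hg (D.V x 0 (X j0 ^ 6))
    rw [hz, LinearMap.zero_apply] at h2
    rw [← h2] at h1
    exact one_ne_zero (neg_eq_zero.1 h1.symm)
  have hker : Module.finrank Ω (LinearMap.ker g) = 4 := by
    have h1 := g.finrank_range_add_finrank_ker
    have h2 : LinearMap.range g = ⊤ := by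
      rw [LinearMap.range_eq_top]
      exact LinearMap.surjective hne
    rw [h2, finrank_top, Module.finrank_self, Module.finrank_fin_fun] at h1
    omega
  have heq : Submodule.span Ω (Set.range (cl D x j0 η t A0)) = LinearMap.ker g :=
    Submodule.eq_of_le_of_finrank_eq hsub (by rw [hrk, hker])
  rw [heq]
  change g u = 0
  rw [hg]
  exact hu

/-- the matrix of a form of degree 5 -/
theorem exists_mat (h : GeoA k D x j0 η t P A0) (A : MvPolynomial (Fin (4 + 1)) Ω)
    (hA : A.IsHomogeneous 5) : ∃ m : Matrix (Fin r) (Fin r) Ω, ∀ j : Fin r,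
      D.V x 0 (A * lf x j0 (t j.succ)) -
        ∑ i : Fin r, m i j • D.V x 0 (A0 * lf x j0 (t i.succ)) ∈ Hs x η := by
  have h0 : ∀ m, eval x (D.F m) = 0 := fun m => by
    rw [Subsingleton.elim m 0]
    exact h.h0
  have hev : ∀ i, eval x (lf x j0 i) = 0 := fun i => by
    unfold lf
    rw [map_sub, map_mul, eval_X, eval_C, eval_X, h.hj0, mul_one, sub_self]
  have hlf : ∀ i, (lf x j0 i).IsHomogeneous 1 := fun i => by
    unfold lf
    refine (isHomogeneous_X _ _).sub ?_
    have h1 := (isHomogeneous_C (Fin (4 + 1)) (x i)).mul (isHomogeneous_X Ω j0)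
    rwa [zero_add] at h1
  have key : ∀ j : Fin r, ∃ m : Fin r → Ω, D.V x 0 (A * lf x j0 (t j.succ)) -
      ∑ i : Fin r, m i • D.V x 0 (A0 * lf x j0 (t i.succ)) ∈ Hs x η := by
    intro j
    have h1 := H12.reln Ω 4 1 (fun _ => 6) D x h0 0 0 (A * lf x j0 (t j.succ)) (hA.mul (hlf _))
    rw [if_pos rfl, map_mul (eval x), hev, mul_zero, neg_zero] at h1
    have h2 := mem_cl h _ h1
    obtain ⟨c, hc⟩ := (Submodule.mem_span_range_iff_exists_fun Ω).1 h2
    refine ⟨fun i => c (Sum.inr (Sum.inr i)), ?_⟩
    rw [← hc, Fintype.sum_sum_type, Fintype.sum_sum_type]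
    have h3 : (∑ a : Unit, c (Sum.inl a) • cl D x j0 η t A0 (Sum.inl a)) +
        ((∑ a : Fin s, c (Sum.inr (Sum.inl a)) • cl D x j0 η t A0 (Sum.inr (Sum.inl a))) +
        ∑ a : Fin r, c (Sum.inr (Sum.inr a)) • cl D x j0 η t A0 (Sum.inr (Sum.inr a))) -
        ∑ i : Fin r, c (Sum.inr (Sum.inr i)) • D.V x 0 (A0 * lf x j0 (t i.succ)) =
        (∑ a : Unit, c (Sum.inl a) • cl D x j0 η t A0 (Sum.inl a)) +
        ∑ a : Fin s, c (Sum.inr (Sum.inl a)) • cl D x j0 η t A0 (Sum.inr (Sum.inl a)) := by
      rw [add_sub_assoc, add_sub_assoc]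
      congr 1
      rw [add_eq_left]
      exact sub_self _
    rw [h3]
    unfold Hs
    refine Submodule.add_mem _ (Submodule.sum_mem _ fun a _ => Submodule.smul_mem _ _
      (Submodule.subset_span (Or.inl rfl))) (Submodule.sum_mem _ fun a _ =>
      Submodule.smul_mem _ _ (Submodule.subset_span (Or.inr ⟨a, rfl⟩)))
  choose m hm using key
  exact ⟨fun i j => m j i, fun j => hm j⟩

/-- uniqueness of the matrix -/
theorem mat_unique (bas : LinearIndependent Ω (Sum.elim (fun _ : Unit => x)
    (Sum.elim η fun b : Fin r => D.V x 0 (A0 * lf x j0 (t b.succ)))))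
    (c : Fin r → Ω) (hc : ∑ i : Fin r, c i • D.V x 0 (A0 * lf x j0 (t i.succ)) ∈ Hs x η) :
    c = 0 := by
  have hr : insert x (Set.range η) = Set.range (Sum.elim (fun _ : Unit => x) η) := by
    ext u
    constructor
    · rintro (rfl | ⟨a, rfl⟩)
      · exact ⟨Sum.inl (), rfl⟩
      · exact ⟨Sum.inr a, rfl⟩
    · rintro ⟨a | a, rfl⟩
      · exact Or.inl rfl
      · exact Or.inr ⟨a, rfl⟩
  unfold Hs at hc
  rw [hr] at hc
  obtain ⟨e, he⟩ := (Submodule.mem_span_range_iff_exists_fun Ω).1 hc
  rw [Fintype.sum_sum_type] at he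
  have h1 := Fintype.linearIndependent_iff.1 bas
    (Sum.elim (fun a => e (Sum.inl a)) (Sum.elim (fun a => e (Sum.inr a)) fun a => - c a)) (by
      rw [Fintype.sum_sum_type, Fintype.sum_sum_type]
      simp only [Sum.elim_inl, Sum.elim_inr, neg_smul, Finset.sum_neg_distrib]
      simp only [Sum.elim_inl, Sum.elim_inr] at he
      rw [← he]
      abel)
  funext i
  have h2 := h1 (Sum.inr (Sum.inr i))
  simp only [Sum.elim_inr, neg_eq_zero] at h2
  exact h2

end words

/-- matrices by linearity -/
theorem lin_mat {E : Type} [Field E] {r : ℕ}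
    (V : MvPolynomial (Fin (4 + 1)) E →ₗ[E] (Fin (4 + 1) → E))
    (l : Fin r → MvPolynomial (Fin (4 + 1)) E) (c : Fin r → Fin (4 + 1) → E)
    (S : Submodule E (Fin (4 + 1) → E)) (a0 : (Fin (4 + 1) →₀ ℕ) → Matrix (Fin r) (Fin r) E)
    (h : ∀ I, I.degree = 5 → ∀ j, V (monomial I 1 * l j) - ∑ i, a0 I i j • c i ∈ S)
    (A : MvPolynomial (Fin (4 + 1)) E) (hA : A.IsHomogeneous 5) (j : Fin r) :
    V (A * l j) - ∑ i, (∑ I ∈ A.support, coeff I A • a0 I) i j • c i ∈ S := by
  have h1 : V (A * l j) = ∑ I ∈ A.support, coeff I A • V (monomial I 1 * l j) := by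
    conv_lhs => rw [A.as_sum]
    rw [Finset.sum_mul, map_sum]
    refine Finset.sum_congr rfl fun I _ => ?_
    have h2 : monomial I (coeff I A) = coeff I A • monomial I (1 : E) := by
      rw [smul_monomial, smul_eq_mul, mul_one]
    rw [h2, smul_mul_assoc, map_smul]
  have h3 : V (A * l j) - ∑ i, (∑ I ∈ A.support, coeff I A • a0 I) i j • c i =
      ∑ I ∈ A.support, coeff I A • (V (monomial I 1 * l j) - ∑ i, a0 I i j • c i) := by
    rw [h1]
    simp only [smul_sub, Finset.sum_sub_distrib, Finset.smul_sum, Matrix.sum_apply,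
      Matrix.smul_apply, Finset.sum_smul, smul_smul, smul_eq_mul]
    congr 1
    rw [Finset.sum_comm]
  rw [h3]
  refine Submodule.sum_mem _ fun I hI => Submodule.smul_mem _ _ (h I ?_ j)
  have h2 := hA (mem_support_iff.1 hI)
  rw [Finsupp.degree_eq_weight_one]
  exact h2

theorem sum_mono {E : Type} [Field E] {r : ℕ} (a0 : (Fin (4 + 1) →₀ ℕ) → Matrix (Fin r) (Fin r) E)
    (I : Fin (4 + 1) →₀ ℕ) : ∑ J ∈ (monomial I (1 : E)).support,
      coeff J (monomial I (1 : E)) • a0 J = a0 I := by
  classical
  rw [support_monomial, if_neg one_ne_zero, Finset.sum_singleton, coeff_monomial, if_pos rfl,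
    one_smul]

section final

variable {Ω : Type} [Field Ω] [CharZero Ω]

/-- elements of `K` which are independent over `k` are independent over `Ω` -/
theorem ind_K {k : Subfield Ω} {K : Subfield (AlgebraicClosure Ω)}
    (hkK : ∀ z ∈ k, algebraMap Ω (AlgebraicClosure Ω) z ∈ K)
    (hld : ∀ (N : ℕ) (y : Fin N → Ω),
      (∀ a : Fin N → Ω, (∀ i, a i ∈ k) → ∑ i, a i * y i = 0 → a = 0) →
      ∀ a : Fin N → AlgebraicClosure Ω, (∀ i, a i ∈ K) →
        ∑ i, a i * algebraMap Ω (AlgebraicClosure Ω) (y i) = 0 → a = 0)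
    {N : ℕ} (κ : Fin N → AlgebraicClosure Ω) (hκ : ∀ i, κ i ∈ K) (hi : LinearIndependent k κ)
    (ω : Fin N → Ω) (h : ∑ j, κ j * algebraMap Ω (AlgebraicClosure Ω) (ω j) = 0) : ω = 0 := by
  obtain ⟨N', y, b, hy, hb, -⟩ := dec (F := k) ω
  have hy' : ∀ a : Fin N' → Ω, (∀ i, a i ∈ k) → ∑ i, a i * y i = 0 → a = 0 := by
    intro a ha h0
    have h1 := Fintype.linearIndependent_iff.1 hy (fun i => (⟨a i, ha i⟩ : k)) h0
    funext i
    exact congrArg Subtype.val (h1 i)
  have hA : (fun l => ∑ j, κ j * algebraMap Ω (AlgebraicClosure Ω) (b j l : Ω)) = 0 := by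
    refine hld N' y hy' _ (fun l => sum_mem fun j _ => mul_mem (hκ j) (hkK _ (b j l).2)) ?_
    rw [← h]
    simp only [Finset.sum_mul]
    rw [Finset.sum_comm]
    refine Finset.sum_congr rfl fun j _ => ?_
    rw [hb j, map_sum, Finset.mul_sum]
    refine Finset.sum_congr rfl fun l _ => ?_
    rw [map_mul, mul_assoc]
    rfl
  have hb0 : ∀ j l, b j l = 0 := by
    intro j l
    refine Fintype.linearIndependent_iff.1 hi (fun j => b j l) ?_ j
    have h1 := congrFun hA l
    rw [Pi.zero_apply] at h1
    rw [← h1]
    refine Finset.sum_congr rfl fun j _ => ?_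
    change (b j l : Ω) • κ j = _
    rw [Algebra.smul_def, mul_comm]
  funext j
  rw [hb j]
  simp [hb0]

end final

/-- Module EXTA. -/
theorem exta : ExtaStatement := by
  classical
  intro hLd hDex Ω _ _ k D x j0 s r η t P A0 h
  obtain ⟨K, hKc, hkK, hld⟩ := hLd Ω k h.kalg
  obtain ⟨D', hF, hd⟩ := hDex Ω 4 1 (fun _ => 6) D
  let φ : Ω →+* AlgebraicClosure Ω := algebraMap Ω (AlgebraicClosure Ω)
  have hkK' : ∀ z ∈ k, φ z ∈ K := hkK
  have hd' : ∀ I z, D'.del 0 I (φ z) = φ (D.del 0 I z) := fun I z => hd 0 I z
  have hF' : D'.F 0 = MvPolynomial.map φ (D.F 0) := hF 0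
  have hV : ∀ G, D'.V (im φ x) 0 (MvPolynomial.map φ G) = im φ (D.V x 0 G) :=
    fun G => V_im φ D D' x hd' G
  have hVl : ∀ G i, D'.V (im φ x) 0 (MvPolynomial.map φ G * lf (im φ x) j0 i) =
      im φ (D.V x 0 (G * lf x j0 i)) := fun G i => by
    rw [lf_im, ← map_mul (MvPolynomial.map φ), hV]
  have bas' : LinearIndependent (AlgebraicClosure Ω) (Sum.elim (fun _ : Unit => im φ x)
      (Sum.elim (fun a => im φ (η a)) fun b : Fin r =>
        D'.V (im φ x) 0 (MvPolynomial.map φ A0 * lf (im φ x) j0 (t b.succ)))) := by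
    have h1 := li_map φ _ h.bas
    have h2 : (fun i p => φ (Sum.elim (fun _ : Unit => x)
        (Sum.elim η fun b : Fin r => D.V x 0 (A0 * lf x j0 (t b.succ))) i p)) =
        (Sum.elim (fun _ : Unit => im φ x) (Sum.elim (fun a => im φ (η a)) fun b : Fin r =>
        D'.V (im φ x) 0 (MvPolynomial.map φ A0 * lf (im φ x) j0 (t b.succ)))) := by
      funext i p
      rcases i with i | i | i
      · rfl
      · rfl
      · rw [Sum.elim_inr, Sum.elim_inr, Sum.elim_inr, Sum.elim_inr, hVl]
        rfl
    rwa [h2] at h1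
  refine ⟨AlgebraicClosure Ω, inferInstance, inferInstance, inferInstance, K, D', im φ x,
    fun a => im φ (η a), fun i => im φ (P i), MvPolynomial.map φ A0, hKc, ?_⟩
  refine
    { hj0 := by rw [im_apply, h.hj0, map_one]
      h0 := by rw [hF', eval_map', h.h0, map_zero]
      kF := fun I => by
        rw [hF', coeff_map]
        exact hkK' _ (h.kF I)
      kalg := rac_of_closed K hKc
      sr := h.sr
      r2 := h.r2
      hull :=
        { t0 := h.hull.t0
          Pt := fun i j => by
            rw [im_apply, h.hull.Pt]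
            split_ifs
            · exact map_one φ
            · exact map_zero φ
          xP := fun f => by
            rw [im_apply, h.hull.xP f, map_sum]
            exact Finset.sum_congr rfl fun i _ => map_mul φ _ _
          Pk := fun i f => hkK' _ (h.hull.Pk i f)
          yk := fun a ha h0 => hld (r + 1) (fun i => x (t i)) h.hull.yk a ha h0 }
      gη := fun i => by
        have h1 := congrArg φ (h.gη i)
        rw [map_sum, map_zero] at h1
        rw [← h1]
        refine Finset.sum_congr rfl fun p _ => ?_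
        rw [hF', pderiv_map, eval_map', map_mul φ]
        rfl
      w := fun p q => by
        rw [WT_im φ D D' x hF' hd']
        exact Hs_im φ x η (h.w p q)
      van := fun A hA f => ?_
      A0k := ⟨h.A0k.1.map φ, fun I => by
        rw [coeff_map]
        exact hkK' _ (h.A0k.2 I)⟩
      bas := bas'
      word := ?_
      ann := ?_ }
  · -- van
    refine hom_mem ((D'.V (im φ x) 0).comp (LinearMap.mulRight (AlgebraicClosure Ω)
      (lam t (fun i => im φ (P i)) f))) _ 5 (fun I hI => ?_) A hA
    rw [LinearMap.comp_apply, LinearMap.mulRight_apply, lam_im]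
    have h1 : monomial I (1 : AlgebraicClosure Ω) = MvPolynomial.map φ (monomial I 1) := by
      rw [map_monomial, map_one φ]
    rw [h1, ← map_mul (MvPolynomial.map φ), hV]
    exact Hs_im φ x η (h.van _ (isHomogeneous_monomial _ hI) f)
  · -- words
    intro a ha l hl
    have hm : ∀ I : Fin (4 + 1) →₀ ℕ, ∃ m : Matrix (Fin r) (Fin r) Ω, I.degree = 5 →
        ∀ j : Fin r, D.V x 0 (monomial I 1 * lf x j0 (t j.succ)) -
        ∑ i : Fin r, m i j • D.V x 0 (A0 * lf x j0 (t i.succ)) ∈ Hs x η := by
      intro I
      by_cases hI : I.degree = 5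
      · obtain ⟨m, hm⟩ := exists_mat h (monomial I 1) (isHomogeneous_monomial _ hI)
        exact ⟨m, fun _ => hm⟩
      · exact ⟨0, fun h' => absurd h' hI⟩
    choose a0 ha0 using hm
    have hw : ∀ w : List (Fin (4 + 1) →₀ ℕ), (∀ I ∈ w, I.degree = 5) →
        Matrix.trace ((w.map a0).prod) ∈ k := by
      intro w hw
      have h1 := h.word (fun A => ∑ I ∈ A.support, coeff I A • a0 I)
        (fun A hA j => lin_mat (D.V x 0) (fun j => lf x j0 (t j.succ))
          (fun i => D.V x 0 (A0 * lf x j0 (t i.succ))) (Hs x η) a0 ha0 A hA j)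
        (w.map fun I => monomial I 1) (fun A hA => by
          obtain ⟨I, hI, rfl⟩ := List.mem_map.1 hA
          refine ⟨isHomogeneous_monomial _ (hw I hI), fun J => ?_⟩
          rw [coeff_monomial]
          split_ifs
          · exact one_mem k
          · exact zero_mem k)
      rw [List.map_map] at h1
      have h2 : ((fun A : MvPolynomial (Fin (4 + 1)) Ω => ∑ I ∈ A.support, coeff I A • a0 I) ∘
          fun I => monomial I 1) = a0 := by
        funext I
        exact sum_mono a0 I
      rwa [h2] at h1
    -- the matrices over the closure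
    have haE : ∀ A, Fk K 5 A → a A = ∑ I ∈ A.support, coeff I A • (a0 I).map φ := by
      intro A hA
      have h1 := lin_mat (D'.V (im φ x) 0) (fun j => lf (im φ x) j0 (t j.succ))
          (fun i => D'.V (im φ x) 0 (MvPolynomial.map φ A0 * lf (im φ x) j0 (t i.succ)))
          (Hs (im φ x) fun a => im φ (η a)) (fun I => (a0 I).map φ) (fun I hI j => by
            have h2 := Hs_im φ x η (ha0 I hI j)
            have h3 : im φ (D.V x 0 (monomial I 1 * lf x j0 (t j.succ)) -
                ∑ i : Fin r, a0 I i j • D.V x 0 (A0 * lf x j0 (t i.succ))) =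
                D'.V (im φ x) 0 (monomial I 1 * lf (im φ x) j0 (t j.succ)) -
                ∑ i, (a0 I).map φ i j •
                D'.V (im φ x) 0 (MvPolynomial.map φ A0 * lf (im φ x) j0 (t i.succ)) := by
              have h4 : monomial I (1 : AlgebraicClosure Ω) =
                  MvPolynomial.map φ (monomial I 1) := by
                rw [map_monomial, map_one φ]
              rw [h4, hVl]
              funext p
              rw [im_apply, Pi.sub_apply, Finset.sum_apply, map_sub, map_sum, Pi.sub_apply,
                Finset.sum_apply]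
              congr 1
              refine Finset.sum_congr rfl fun i _ => ?_
              rw [hVl, Pi.smul_apply, Pi.smul_apply, smul_eq_mul, smul_eq_mul, map_mul φ,
                Matrix.map_apply]
              rfl
            rwa [h3] at h2) A hA.1
      ext i j
      have h5 := mat_unique bas' (fun i => a A i j -
        (∑ I ∈ A.support, coeff I A • (a0 I).map φ) i j) (by
          have h6 := Submodule.sub_mem _ (h1 j) (ha A hA.1 j)
          have h7 : (D'.V (im φ x) 0) (A * lf (im φ x) j0 (t j.succ)) -
              ∑ i, (∑ I ∈ A.support, coeff I A • (a0 I).map φ) i j •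
              D'.V (im φ x) 0 (MvPolynomial.map φ A0 * lf (im φ x) j0 (t i.succ)) -
              ((D'.V (im φ x) 0) (A * lf (im φ x) j0 (t j.succ)) -
              ∑ i, a A i j •
              D'.V (im φ x) 0 (MvPolynomial.map φ A0 * lf (im φ x) j0 (t i.succ))) =
              ∑ i, (a A i j - (∑ I ∈ A.support, coeff I A • (a0 I).map φ) i j) •
              D'.V (im φ x) 0 (MvPolynomial.map φ A0 * lf (im φ x) j0 (t i.succ)) := by
            rw [sub_sub_sub_cancel_left, ← Finset.sum_sub_distrib]
            exact Finset.sum_congr rfl fun i _ => (sub_smul _ _ _).symm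
          rwa [h7] at h6)
      have h8 := congrFun h5 i
      exact sub_eq_zero.1 h8
    let G : AddSubgroup (Matrix (Fin r) (Fin r) (AlgebraicClosure Ω)) :=
      AddSubgroup.closure {M | ∃ κ ∈ K, ∃ w : List (Fin (4 + 1) →₀ ℕ),
        (∀ I ∈ w, I.degree = 5) ∧ M = κ • ((w.map a0).prod).map φ}
    have hmul : ∀ A, Fk K 5 A → ∀ M ∈ G, a A * M ∈ G := by
      intro A hA M hM
      rw [haE A hA, Finset.sum_mul]
      refine sum_mem fun I hI => ?_
      have hI5 : I.degree = 5 := by
        have h2 := hA.1 (mem_support_iff.1 hI)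
        rw [Finsupp.degree_eq_weight_one]
        exact h2
      induction hM using AddSubgroup.closure_induction with
      | mem M hM =>
          obtain ⟨κ, hκ, w, hw', rfl⟩ := hM
          refine AddSubgroup.subset_closure ⟨coeff I A * κ, mul_mem (hA.2 I) hκ, I :: w, ?_, ?_⟩
          · intro J hJ
            rcases List.mem_cons.1 hJ with rfl | hJ
            · exact hI5
            · exact hw' J hJ
          · rw [List.map_cons, List.prod_cons, Matrix.map_mul, smul_mul_smul_comm]
      | zero =>
          rw [mul_zero]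
          exact zero_mem _
      | add M N _ _ h1 h2 =>
          rw [mul_add]
          exact add_mem h1 h2
      | neg M _ h1 =>
          rw [mul_neg]
          exact neg_mem h1
    have hprod : ∀ l : List (MvPolynomial (Fin (4 + 1)) (AlgebraicClosure Ω)),
        (∀ A ∈ l, Fk K 5 A) → (l.map a).prod ∈ G := by
      intro l
      induction l with
      | nil =>
          intro _
          refine AddSubgroup.subset_closure ⟨1, one_mem K, [], fun I hI => absurd hI (by simp), ?_⟩
          rw [List.map_nil, List.prod_nil, List.map_nil, List.prod_nil, one_smul,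
            Matrix.map_one φ (map_zero φ) (map_one φ)]
      | cons A l ih =>
          intro hl
          rw [List.map_cons, List.prod_cons]
          exact hmul A (hl A (by simp)) _ (ih fun B hB => hl B (by simp [hB]))
    have htr : ∀ M ∈ G, Matrix.trace M ∈ K := by
      intro M hM
      induction hM using AddSubgroup.closure_induction with
      | mem M hM =>
          obtain ⟨κ, hκ, w, hw', rfl⟩ := hM
          rw [Matrix.trace_smul, smul_eq_mul]
          refine mul_mem hκ ?_
          have h1 : Matrix.trace (((w.map a0).prod).map φ) = φ (Matrix.trace ((w.map a0).prod)) := by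
            unfold Matrix.trace
            rw [map_sum]
            rfl
          rw [h1]
          exact hkK' _ (hw w hw')
      | zero =>
          rw [Matrix.trace_zero]
          exact zero_mem _
      | add M N _ _ h1 h2 =>
          rw [Matrix.trace_add]
          exact add_mem h1 h2
      | neg M _ h1 =>
          rw [Matrix.trace_neg]
          exact neg_mem h1
    exact htr _ (hprod l hl)
  · -- annihilators
    intro w hw hv
    obtain ⟨N, κ, b, hi, hc, hsp⟩ := dec (F := k) (E := AlgebraicClosure Ω)
      (fun I : w.support => coeff I.1 w)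
    have hκK : ∀ j, κ j ∈ K := by
      intro j
      have h1 := hsp j
      generalize κ j = z at h1
      induction h1 using Submodule.span_induction with
      | mem u hu =>
          obtain ⟨I, rfl⟩ := hu
          exact hw.2 _
      | zero => exact zero_mem K
      | add u v _ _ h1 h2 => exact add_mem h1 h2
      | smul c u _ h1 =>
          change (c : Ω) • u ∈ K
          rw [Algebra.smul_def]
          exact mul_mem (hkK' _ c.2) h1
    have hc' : ∀ I : w.support, coeff I.1 w = ∑ j, φ (b I j : Ω) * κ j := hc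
    let wj : Fin N → MvPolynomial (Fin (4 + 1)) Ω := fun j =>
      ∑ I : w.support, monomial I.1 (b I j : Ω)
    have hwj : w = ∑ j, κ j • MvPolynomial.map φ (wj j) := by
      have h1 : ∀ j, MvPolynomial.map φ (wj j) = ∑ I : w.support, monomial I.1 (φ (b I j : Ω)) := by
        intro j
        rw [map_sum]
        exact Finset.sum_congr rfl fun I _ => map_monomial φ _ _
      simp only [h1, Finset.smul_sum, smul_monomial, smul_eq_mul]
      rw [Finset.sum_comm]
      conv_lhs => rw [w.as_sum, ← Finset.sum_coe_sort]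
      refine Finset.sum_congr rfl fun I _ => ?_
      rw [hc' I, map_sum]
      refine Finset.sum_congr rfl fun j _ => ?_
      rw [mul_comm]
    have hwk : ∀ j, Fk k 2 (wj j) := by
      intro j
      constructor
      · refine IsHomogeneous.sum _ _ _ fun I _ => isHomogeneous_monomial _ ?_
        have h2 := hw.1 (mem_support_iff.1 I.2)
        rw [Finsupp.degree_eq_weight_one]
        exact h2
      · intro J
        rw [coeff_sum]
        refine sum_mem fun I _ => ?_
        rw [coeff_monomial]
        split_ifs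
        · exact (b I j).2
        · exact zero_mem k
    have hev : ∀ j, eval x (wj j) = 0 := by
      intro j
      refine h.ann (wj j) (hwk j) fun H hH hx => ?_
      by_contra hn
      obtain ⟨f, hf, hf0⟩ := Submodule.exists_dual_map_eq_bot_of_notMem hn inferInstance
      have hf1 : ∀ u ∈ Hs x η, f u = 0 := by
        intro u hu
        have h1 : f u ∈ (Hs x η).map f := ⟨u, hu, rfl⟩
        rw [hf0] at h1
        exact (Submodule.mem_bot Ω).1 h1
      have hfe : ∀ u, f u = ∑ p, f (Pi.single p 1) * u p := by
        intro u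
        have h2 : u = ∑ p, u p • (Pi.single p 1 : Fin (4 + 1) → Ω) := by
          funext q
          simp [Finset.sum_apply, Pi.single_apply]
        conv_lhs => rw [h2]
        rw [map_sum]
        refine Finset.sum_congr rfl fun p _ => ?_
        rw [map_smul, smul_eq_mul, mul_comm]
      have hfE : ∀ u ∈ Hs (im φ x) (fun a => im φ (η a)),
          ∑ p, φ (f (Pi.single p 1)) * u p = 0 := by
        have h3 : ∀ u, f u = 0 → ∑ p, φ (f (Pi.single p 1)) * im φ u p = 0 := by
          intro u hu
          rw [hfe] at hu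
          have h4 := congrArg φ hu
          rw [map_sum, map_zero] at h4
          rw [← h4]
          exact Finset.sum_congr rfl fun p _ => (map_mul φ _ _).symm
        intro u hu
        unfold Hs at hu
        induction hu using Submodule.span_induction with
        | mem u hu =>
            rcases hu with rfl | ⟨a, rfl⟩
            · exact h3 _ (hf1 _ (Submodule.subset_span (Or.inl rfl)))
            · exact h3 _ (hf1 _ (Submodule.subset_span (Or.inr ⟨a, rfl⟩)))
        | zero => simp
        | add u v _ _ h1 h2 =>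
            simp only [Pi.add_apply, mul_add, Finset.sum_add_distrib]
            rw [h1, h2, add_zero]
        | smul c u _ h1 =>
            simp only [Pi.smul_apply, smul_eq_mul]
            have h4 : ∑ p, φ (f (Pi.single p 1)) * (c * u p) =
                c * ∑ p, φ (f (Pi.single p 1)) * u p := by
              rw [Finset.mul_sum]
              exact Finset.sum_congr rfl fun p _ => by ring
            rw [h4, h1, mul_zero]
      have h5 := hfE _ (hv (MvPolynomial.map φ H) (hH.map φ) (by
        rw [eval_map', hx, map_zero]))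
      have h6 : D'.V (im φ x) 0 (w * MvPolynomial.map φ H) =
          ∑ i, κ i • im φ (D.V x 0 (wj i * H)) := by
        conv_lhs => rw [hwj]
        rw [Finset.sum_mul, map_sum]
        refine Finset.sum_congr rfl fun i _ => ?_
        rw [smul_mul_assoc, map_smul, ← map_mul (MvPolynomial.map φ), hV]
      rw [h6] at h5
      have h7 : ∑ i, κ i * algebraMap Ω (AlgebraicClosure Ω) (f (D.V x 0 (wj i * H))) = 0 := by
        rw [← h5]
        simp only [Finset.sum_apply, Pi.smul_apply, smul_eq_mul, Finset.mul_sum]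
        rw [Finset.sum_comm]
        refine Finset.sum_congr rfl fun i _ => ?_
        rw [hfe, map_sum, Finset.mul_sum]
        refine Finset.sum_congr rfl fun p _ => ?_
        rw [map_mul]
        change κ i * (φ _ * φ _) = φ _ * (κ i * im φ _ p)
        rw [im_apply]
        ring
      have h8 := congrFun (ind_K hkK hld κ hκK hi (fun i => f (D.V x 0 (wj i * H))) h7) j
      exact hf h8
    rw [hwj, map_sum]
    refine Finset.sum_eq_zero fun j _ => ?_
    rw [smul_eval, eval_map', hev j, map_zero, mul_zero]

end Pool.Agent.T2.H2
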